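import Pool.Agent.Helper27.NB.Defs

/-!
# Programs which inspect bits: nearly hidden words
-/

set_option autoImplicit false

namespace Pool.Agent.Helper27.NC

/-- A block of symbols `y : Λ → F` has the word `dec y`. If the symbols outside a set of `h` places are known, then
every word is still possible, and no word has more than `(1 + 1 / M)` times the average number `ρ` of blocks. -/
structure Hid (Λ F W : Type) (ρ h M : ℕ) where
  dec : (Λ → F) → W
  res : Finset Λ → (Λ → F) → Fin ρ
  inj : ∀ X : Finset Λ, X.card = h → ∀ y y' : Λ → F, (∀ l, l ∉ X → y l = y' l) → dec y = dec y' →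
    res X y = res X y' → y = y'
  card : M * (ρ * Nat.card W) ≤ (M + 1) * Nat.card F ^ h

variable {Λ F W B : Type} {ρ h M : ℕ}

/-- The words of the blocks of an input. -/
def wd (H : Hid Λ F W ρ h M) (J : B × Λ → F) (b : B) : W := H.dec fun l => J (b, l)

end Pool.Agent.Helper27.NC
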