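import Pool.Agent.Helper27.NB.Word

/-!
# The words of blocks of bits
-/

set_option autoImplicit false

namespace Pool.Agent.Helper27.NC

open Pool.Agent.Helper27.NB (num)

/-- The word of a block of bits `y (u, z)`: the entry number `i` of its component `c` is the sum of `z u ^ (e (num c) + i)`
over all `(u, z)` with `y (u, z) = true`. -/
def bword {K D : Type} [Field K] [Fintype K] (e : ℕ) (num : D → ℕ) (y : K × K → Bool) (c : D) (i : Fin e) : K :=
  ∑ p : K × K, if y p then p.2 * p.1 ^ (e * num c + i.val) else 0

/-- The table of the words of the blocks of the input `J`. -/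
def table {K : Type} [Field K] [Fintype K] {m e : ℕ} (J : (Fin e → K) × (K × K) → Bool) (b : Fin e → K)
    (c : Bool × ZMod m) : Fin e → K :=
  bword e num (fun l => J (b, l)) c

end Pool.Agent.Helper27.NC
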