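import Pool.Agent.Helper4.NC.Frm
import Pool.Agent.Helper18.NF.Nd
import Pool.Agent.Helper70.NB.CardFits

/-!
# The closing instances of one state
-/

set_option autoImplicit false

namespace Pool.Agent.Helper27.NC

open Pool.Agent.Helper6.IP (cnt)
open Pool.Agent.Helper19.NF (Prog obs val ring out CF Pos Dir pos Label Idx Valid lev pst slt PProg)
open Pool.Agent.Helper27.NB (rd New Early Rip crip Hit Chain InR Fits Typ wt)
open Pool.Agent.Helper70.NB (card_fits sum_wt)
open Pool.Agent.Helper70.NF (card_idx)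
open Pool.Agent.Helper18.NF (nd_inj nd_row)
open Pool.Agent.Helper4.NC (secrets)

variable {n m : ℕ} [NeZero m] {B Λ F Z : Type} [AddCommGroup B] [Fintype Λ] {σ S ρ h a M : ℕ}

theorem finite_fits (L : Fin (n - 1) → Label n m) (T T' : ℕ) :
    Finite {num : Idx L → ℕ // Fits L T T' num} := by
  apply Finite.of_injective (fun (f : {num : Idx L → ℕ // Fits L T T' num}) (x : Idx L) =>
    (⟨f.1 x, by
      have := f.2.1 x
      split_ifs at this <;> omega⟩ : Fin (T + T')))
  intro f g h
  apply Subtype.ext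
  funext x
  have := congrFun h x
  simpa using congrArg Fin.val this

omit [NeZero m] in
theorem wt_nonneg {K K' x : ℝ} (hK : 0 ≤ K) (hK' : 0 ≤ K') (hx : 0 < x) (ℓ : Label n m) : 0 ≤ wt K K' x ℓ := by
  unfold wt
  split_ifs
  · positivity
  · positivity

theorem card_idx_le (L : Fin (n - 1) → Label n m) : Fintype.card (Idx L) ≤ n * m := by
  rw [card_idx]
  have h1 : Fintype.card (Pool.Agent.Helper70.NF.Two L) + Fintype.card {a : Fin (n - 1) // ¬ (L a).2.isLeft} = n - 1 := by
    have h2 := Fintype.card_subtype_compl (fun a : Fin (n - 1) => (L a).2.isLeft = true)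
    have h3 := Fintype.card_subtype_le (fun a : Fin (n - 1) => (L a).2.isLeft = true)
    have h4 : Fintype.card (Pool.Agent.Helper70.NF.Two L) =
        Fintype.card {x : Fin (n - 1) // (L x).2.isLeft = true} := Fintype.card_congr (Equiv.refl _)
    rw [Fintype.card_fin] at h2 h3
    omega
  have hm : 1 ≤ m := Nat.one_le_iff_ne_zero.2 (NeZero.ne m)
  calc Fintype.card (Pool.Agent.Helper70.NF.Two L) + m * Fintype.card {a : Fin (n - 1) // ¬ (L a).2.isLeft}
      ≤ m * Fintype.card (Pool.Agent.Helper70.NF.Two L) + m * Fintype.card {a : Fin (n - 1) // ¬ (L a).2.isLeft} :=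
        Nat.add_le_add_right (Nat.le_mul_of_pos_left _ hm) _
    _ = m * (n - 1) := by rw [← Nat.mul_add, h1]
    _ ≤ n * m := by
        rw [mul_comm]
        exact Nat.mul_le_mul_right _ (Nat.sub_le _ _)

/-- The instances of one sequence of labels. -/
theorem label_bound [Fintype B] [Fintype F] (H : Hid Λ F (Dir m → B) ρ h M) (hah : a + h = Fintype.card Λ)
    (hM1 : 1 ≤ M) (hM : 4 * (n * m) ≤ M) (x0 : Pos n m → B) (P : Prog (B × Λ) F Z σ S) (q : Fin S) (T T' : ℕ) (x : ℝ)
    (hx : 0 < x) (L : Fin (n - 1) → Label n m) :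
    (Nat.card (Σ num : {num : Idx L → ℕ // Valid L ∧ Fits L T T' num},
      {J : B × Λ → F // CF (ring n m) x0 n (wd H J) ∧ Typ a x0 (wd H J) (obs P J q) L num.1}) : ℝ) ≤
      Real.exp x * (∏ a, wt ((T : ℝ) / Fintype.card B) ((T' : ℝ) / Fintype.card B) x (L a)) *
        (2 * Nat.card (B × Λ → F)) := by
  classical
  have hk : 0 < Fintype.card B := Fintype.card_pos_iff.mpr ⟨0⟩
  have hkr : (0 : ℝ) < (Fintype.card B : ℝ) := by exact_mod_cast hk
  have hK : (0 : ℝ) ≤ (T : ℝ) / Fintype.card B := by positivity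
  have hK' : (0 : ℝ) ≤ (T' : ℝ) / Fintype.card B := by positivity
  have hw : 0 ≤ ∏ a, wt ((T : ℝ) / Fintype.card B) ((T' : ℝ) / Fintype.card B) x (L a) :=
    Finset.prod_nonneg fun a _ => wt_nonneg hK hK' hx _
  by_cases hV : Valid L
  · have e : {num : Idx L → ℕ // Valid L ∧ Fits L T T' num} ≃ {num : Idx L → ℕ // Fits L T T' num} :=
      Equiv.subtypeEquivRight fun num => by simp [hV]
    have := finite_fits L T T'
    have : Finite {num : Idx L → ℕ // Valid L ∧ Fits L T T' num} := Finite.of_equiv _ e.symm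
    let _ : Fintype {num : Idx L → ℕ // Valid L ∧ Fits L T T' num} := Fintype.ofFinite _
    rw [Nat.card_sigma]
    push_cast
    have h1 : ∀ num : {num : Idx L → ℕ // Valid L ∧ Fits L T T' num},
        (Nat.card {J : B × Λ → F // CF (ring n m) x0 n (wd H J) ∧
          Typ a x0 (wd H J) (obs P J q) L num.1} : ℝ) ≤
          (2 * Nat.card (B × Λ → F)) / (Fintype.card B : ℝ) ^ Fintype.card (Idx L) := by
      intro num
      rw [le_div_iff₀ (by positivity)]
      have := secrets H hah hM1 (le_trans (Nat.mul_le_mul_left 4 (card_idx_le L)) hM) (ring n m) x0 n P q (fun x : Idx L => (n - lev L x.1, pst L x.1 x.2.1))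
        (nd_inj L hV) (fun x => nd_row L hV x.1) (fun x => slt L x.1 x.2.1)
        (fun x => (L x.1).2.isLeft) num.1
      exact_mod_cast this
    calc ∑ num : {num : Idx L → ℕ // Valid L ∧ Fits L T T' num},
          (Nat.card {J : B × Λ → F // CF (ring n m) x0 n (wd H J) ∧
            Typ a x0 (wd H J) (obs P J q) L num.1} : ℝ)
        ≤ ∑ _num : {num : Idx L → ℕ // Valid L ∧ Fits L T T' num},
          (2 * Nat.card (B × Λ → F)) / (Fintype.card B : ℝ) ^ Fintype.card (Idx L) := Finset.sum_le_sum fun num _ => h1 num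
      _ = (Nat.card {num : Idx L → ℕ // Fits L T T' num} : ℝ) *
          ((2 * Nat.card (B × Λ → F)) / (Fintype.card B : ℝ) ^ Fintype.card (Idx L)) := by
          rw [Finset.sum_const, nsmul_eq_mul, Finset.card_univ, ← Nat.card_eq_fintype_card, Nat.card_congr e]
      _ ≤ (Real.exp x * (∏ a, wt ((T : ℝ) / Fintype.card B) ((T' : ℝ) / Fintype.card B) x (L a)) *
            (Fintype.card B : ℝ) ^ Fintype.card (Idx L)) *
          ((2 * Nat.card (B × Λ → F)) / (Fintype.card B : ℝ) ^ Fintype.card (Idx L)) := by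
          apply mul_le_mul_of_nonneg_right (card_fits L T T' _ hk x hx) (by positivity)
      _ = _ := by
          field_simp
  · have : IsEmpty {num : Idx L → ℕ // Valid L ∧ Fits L T T' num} := ⟨fun s => hV s.2.1⟩
    have : Nat.card (Σ num : {num : Idx L → ℕ // Valid L ∧ Fits L T T' num},
      {J : B × Λ → F // CF (ring n m) x0 n (wd H J) ∧ Typ a x0 (wd H J) (obs P J q) L num.1}) = 0 :=
      Nat.card_of_isEmpty
    rw [this]
    simp only [Nat.cast_zero]
    positivity

/-- The closing instances of one state. -/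
theorem close_bound [Fintype B] [Fintype F] (H : Hid Λ F (Dir m → B) ρ h M) (hah : a + h = Fintype.card Λ)
    (hM1 : 1 ≤ M) (hM : 4 * (n * m) ≤ M) (x0 : Pos n m → B) (P : Prog (B × Λ) F Z σ S) (q : Fin S) (T T' : ℕ) (x : ℝ) (hx : 0 < x) :
    (Nat.card {J : B × Λ → F // CF (ring n m) x0 n (wd H J) ∧ ∃ (L : Fin (n - 1) → Label n m) (num : Idx L → ℕ),
      Valid L ∧ Fits L T T' num ∧ Typ a x0 (wd H J) (obs P J q) L num} : ℝ) ≤
      2 * (Real.exp x * (4 * m ^ 2 * ((T : ℝ) / Fintype.card B) / x +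
        2 * m ^ 2 * n * ((T' : ℝ) / Fintype.card B) ^ m) ^ (n - 1) * Nat.card (B × Λ → F)) := by
  classical
  have hfin : ∀ L : Fin (n - 1) → Label n m, Finite {num : Idx L → ℕ // Valid L ∧ Fits L T T' num} := by
    intro L
    have := finite_fits L T T'
    exact Finite.of_injective (fun s : {num : Idx L → ℕ // Valid L ∧ Fits L T T' num} =>
      (⟨s.1, s.2.2⟩ : {num : Idx L → ℕ // Fits L T T' num})) fun a b h => Subtype.ext (by simpa using h)
  have h1 : Nat.card {J : B × Λ → F // CF (ring n m) x0 n (wd H J) ∧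
      ∃ (L : Fin (n - 1) → Label n m) (num : Idx L → ℕ),
      Valid L ∧ Fits L T T' num ∧ Typ a x0 (wd H J) (obs P J q) L num} ≤
      Nat.card (Σ L : Fin (n - 1) → Label n m, Σ num : {num : Idx L → ℕ // Valid L ∧ Fits L T T' num},
        {J : B × Λ → F // CF (ring n m) x0 n (wd H J) ∧ Typ a x0 (wd H J) (obs P J q) L num.1}) := by
    refine Nat.card_le_card_of_injective (fun s => ⟨s.2.2.choose, ⟨s.2.2.choose_spec.choose,
      s.2.2.choose_spec.choose_spec.1, s.2.2.choose_spec.choose_spec.2.1⟩, ⟨s.1, s.2.1,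
      s.2.2.choose_spec.choose_spec.2.2⟩⟩) ?_
    intro a b h
    have := congrArg (fun z : (Σ L : Fin (n - 1) → Label n m, Σ num : {num : Idx L → ℕ // Valid L ∧ Fits L T T' num},
        {J : B × Λ → F // CF (ring n m) x0 n (wd H J) ∧ Typ _ x0 (wd H J) (obs P J q) L num.1}) => z.2.2.1) h
    exact Subtype.ext this
  rw [Nat.card_sigma] at h1
  calc (Nat.card {J : B × Λ → F // CF (ring n m) x0 n (wd H J) ∧
        ∃ (L : Fin (n - 1) → Label n m) (num : Idx L → ℕ),
        Valid L ∧ Fits L T T' num ∧ Typ a x0 (wd H J) (obs P J q) L num} : ℝ)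
      ≤ ∑ L : Fin (n - 1) → Label n m, (Nat.card (Σ num : {num : Idx L → ℕ // Valid L ∧ Fits L T T' num},
        {J : B × Λ → F // CF (ring n m) x0 n (wd H J) ∧ Typ a x0 (wd H J) (obs P J q) L num.1}) : ℝ) := by
        exact_mod_cast h1
    _ ≤ ∑ L : Fin (n - 1) → Label n m, Real.exp x *
        (∏ a, wt ((T : ℝ) / Fintype.card B) ((T' : ℝ) / Fintype.card B) x (L a)) *
        (2 * Nat.card (B × Λ → F)) := Finset.sum_le_sum fun L _ => label_bound H hah hM1 hM x0 P q T T' x hx L
    _ = Real.exp x * (∑ L : Fin (n - 1) → Label n m, ∏ a, wt ((T : ℝ) / Fintype.card B)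
        ((T' : ℝ) / Fintype.card B) x (L a)) * (2 * Nat.card (B × Λ → F)) := by
        rw [← Finset.sum_mul, ← Finset.mul_sum]
    _ = _ := by
        rw [sum_wt]
        ring

end Pool.Agent.Helper27.NC
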