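import Pool.Agent.Helper27.NB.Ripe
import Pool.Agent.Helper4.NC.Frm
import Pool.Agent.Helper43.NC.Cf
import Pool.Agent.Helper78.NC.Root
import Pool.Agent.Helper27.NC.Close
import Pool.Agent.Helper1.NB.Close
import Pool.Agent.Helper58.NB.Label

/-!
# The bound
-/

set_option autoImplicit false

namespace Pool.Agent.Helper27.NC

open Pool.Agent.Helper6.IP (cnt)
open Pool.Agent.Helper19.NF (Prog obs val ring out CF Pos Dir pos Label Idx Valid lev pst slt PProg asks_iff outputs_iff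
  outputs_later outputs_unique obs_add obs_final card_exists_le card_pairs_le cnt_lt_card)
open Pool.Agent.Helper27.NB (rd New Early Rip crip Hit Chain InR Fits Typ crip_lt)
open Pool.Agent.Helper4.NC (secrets)
open Pool.Agent.Helper78.NC (root_bound)
open Pool.Agent.Helper43.NC (card_not_CF)
open Pool.Agent.Helper1.NB (exists_close open_start)
open Pool.Agent.Helper58.NB (exists_label)

variable {n m : ℕ} [NeZero m] {B Λ F : Type} [AddCommGroup B] [Fintype Λ] {σ S ρ h a M : ℕ}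

/-- B11b: the time `0` events: all letters of the node `(l, 0)` get ripe when the letter `t'` of its neighbour below is
not ripe. -/
theorem bad_bound [Fintype B] [Fintype F] {Z : Type} (H : Hid Λ F (Dir m → B) ρ h M) (hah : a + h = Fintype.card Λ)
    (hM1 : 1 ≤ M) (hM : 4 * m ≤ M)
    (x0 : Pos n m → B) (P : Prog (B × Λ) F Z σ S) (q : Fin S) (T : ℕ) (l : ℕ) (hl : 1 ≤ l) (hln : l < n)
    (t' : ZMod m) :
    Nat.card {J : B × Λ → F // CF (ring n m) x0 n (wd H J) ∧ Nat.card {b // P.Asks J q b} ≤ T ∧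
      ∀ t : ZMod m, ∃ r, Rip a (obs P J q) (val (ring n m) x0 (wd H J) (n - l) (0, t)) r ∧
        rd (obs P J q) (val (ring n m) x0 (wd H J) (n - l - 1) (0, t')) r ≤ a} * Fintype.card B ^ m ≤
      (T / (a + 1)) ^ m * (2 * Nat.card (B × Λ → F)) := by
  classical
  have h1 := card_exists_le (α := B × Λ → F) (κ := ZMod m → Fin (T / (a + 1)))
    (fun num J => CF (ring n m) x0 n (wd H J) ∧ ∀ t : ZMod m, Hit a (obs P J q) false
      (val (ring n m) x0 (wd H J) (n - l) (0, t))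
      (val (ring n m) x0 (wd H J) (n - l - 1) (ring n m (false, t' - t) (0, t))) (num t)) (Fintype.card B ^ m)
    (2 * Nat.card (B × Λ → F)) (fun num => by
      have h2 := secrets H hah hM1 (by rw [ZMod.card]; exact hM) (ring n m) x0 n P q (fun t : ZMod m => (n - l, ((0, t) : Pos n m)))
        (fun t t' h => by simpa using h) (fun t => ⟨by show 1 ≤ n - l; omega, by show n - l < n; omega⟩)
        (fun t => (false, t' - t)) (fun _ => false) (fun t => (num t : ℕ))
      rw [ZMod.card] at h2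
      exact h2)
  have h3 : Nat.card (ZMod m → Fin (T / (a + 1))) = (T / (a + 1)) ^ m := by
    rw [Nat.card_fun, Nat.card_eq_fintype_card, Nat.card_eq_fintype_card, Fintype.card_fin, ZMod.card]
  rw [h3] at h1
  refine le_trans (Nat.mul_le_mul_right _ ?_) h1
  refine Nat.card_le_card_of_injective (fun J => ⟨J.1, ?_⟩) (fun J J' h => by simpa [Subtype.ext_iff] using h)
  obtain ⟨J, hJ, hT, hh⟩ := J
  have h4 : ∀ t, ∃ ν < T / (a + 1), Hit a (obs P J q) false (val (ring n m) x0 (wd H J) (n - l) (0, t))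
      (val (ring n m) x0 (wd H J) (n - l - 1) (ring n m (false, t' - t) (0, t))) ν := by
    intro t
    obtain ⟨r, hr, hr'⟩ := hh t
    have h6 : ring n m (false, t' - t) ((0, t) : Pos n m) = (0, t') := by
      simp [ring]
    refine ⟨crip a (obs P J q) r, crip_lt P J q T hT 0 r _ hr, r, ?_, ?_⟩
    · rw [h6]
      exact hr'
    · simpa using hr
  choose ν hν hν' using h4
  exact ⟨fun t => ⟨ν t, hν t⟩, hJ, hν'⟩

/-- The closing time of a computation which is not of one of the other kinds. -/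
theorem exists_q (hn : 1 ≤ n) {Z : Type} [Finite B] [Finite F] (H : Hid Λ F (Dir m → B) ρ h M) (x0 : Pos n m → B)
    (P : Prog (B × Λ) F Z σ S) (q : Fin S)
    (T : ℕ) (J : B × Λ → F) (hJ : CF (ring n m) x0 n (wd H J)) (z : Z) (hz : P.Outputs J q z)
    (hT : Nat.card {b // P.Asks J q b} ≤ T)
    (h1 : ∀ t : ZMod m, ∃ r, Rip a (obs P J q) (val (ring n m) x0 (wd H J) (n - 1) (0, t)) r)
    (h2 : ∀ l, 1 ≤ l → l < n → ∀ t' : ZMod m, ¬ ∀ t : ZMod m, ∃ r,
      Rip a (obs P J q) (val (ring n m) x0 (wd H J) (n - l) (0, t)) r ∧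
        rd (obs P J q) (val (ring n m) x0 (wd H J) (n - l - 1) (0, t')) r ≤ a) :
    ∃ τ, ∃ (L : Fin (n - 1) → Label n m) (num : Idx L → ℕ), Valid L ∧ Fits L T (T / (a + 1)) num ∧
      Typ a x0 (wd H J) (obs P J ((P.step J)^[τ] q)) L num := by
  have h3 : ∃ w t, InR a x0 (wd H J) (obs P J q) n w t := open_start hn x0 (wd H J) hJ (obs P J q) h1 h2
  obtain ⟨L0, hL0⟩ := (outputs_iff P J q z).1 hz
  obtain ⟨τ, hτ, c, s, hc⟩ := exists_close hn x0 (wd H J) (obs P J q) L0 (fun j hj => ⟨z, obs_final hL0 hj⟩) h3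
  refine ⟨τ, ?_⟩
  have h5 : (fun j => obs P J q (j + τ)) = obs P J ((P.step J)^[τ] q) := by
    funext j
    exact (obs_add P J q τ j).symm
  rw [← h5]
  refine exists_label hn x0 (wd H J) hJ _ T (T / (a + 1)) ?_ ?_ hτ c s hc
  · rintro t b ⟨l, hb, hb'⟩
    exact cnt_lt_card hT τ hb hb'
  · intro t b hr
    exact crip_lt P J q T hT τ t b hr

/-- The whole bound. The pairs `(i, J)` such that the computation from the initial state number `i` on `J` ends
with the right output and with the index `i` and queries at most `T` symbols. -/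
theorem main_bound {Y : Type} [Fintype B] [Fintype F] (hn : 1 ≤ n) (H : Hid Λ F (Dir m → B) ρ h M)
    (hah : a + h = Fintype.card Λ) (hM : 4 * (n * m) ≤ M) (hM' : 2 * Fintype.card B ≤ M) (x0 : Pos n m → B) (h0 : Function.Injective x0)
    (P : Prog (B × Λ) F (Y × Fin σ) σ S) (φ : B → Y) (p T : ℕ) (hφ : ∀ y, Nat.card {b // φ b = y} ≤ p) (x : ℝ)
    (hx : 0 < x) :
    (Nat.card {s : Fin σ × (B × Λ → F) // P.Outputs s.2 (P.start s.1) (φ (out x0 (wd H s.2)), s.1) ∧
        Nat.card {b // P.Asks s.2 (P.start s.1) b} ≤ T} : ℝ) ≤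
      (σ * ((2 * (n * (n + 1) * m) ^ 2 + (1 + 1 / M) * p) / Fintype.card B +
          2 * (n * m * (((T / (a + 1) : ℕ) : ℝ) / Fintype.card B) ^ m)) +
        2 * (S * (Real.exp x * (4 * m ^ 2 * ((T : ℝ) / Fintype.card B) / x +
          2 * m ^ 2 * n * (((T / (a + 1) : ℕ) : ℝ) / Fintype.card B) ^ m) ^ (n - 1)))) *
        Nat.card (B × Λ → F) := by
  classical
  set k := Fintype.card B with hk
  have hk0 : 0 < k := Fintype.card_pos_iff.2 ⟨0⟩
  have hkR : (0 : ℝ) < k := by exact_mod_cast hk0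
  set N := Nat.card (B × Λ → F) with hN
  set T' := T / (a + 1) with hT'
  have hM1 : 1 ≤ M := by omega
  have hMR : (0 : ℝ) < M := by exact_mod_cast hM1
  have hM2 : 4 * m ≤ M := by
    refine le_trans ?_ hM
    have : 1 * m ≤ n * m := Nat.mul_le_mul_right m hn
    omega
  -- the four kinds
  let G : Fin σ × (B × Λ → F) → Prop := fun s => P.Outputs s.2 (P.start s.1) (φ (out x0 (wd H s.2)), s.1) ∧
    Nat.card {b // P.Asks s.2 (P.start s.1) b} ≤ T
  let A1 : Set (Fin σ × (B × Λ → F)) := {s | ¬ CF (ring n m) x0 n (wd H s.2)}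
  let A2 : Set (Fin σ × (B × Λ → F)) := {s | CF (ring n m) x0 n (wd H s.2) ∧
    P.Outputs s.2 (P.start s.1) (φ (val (ring n m) x0 (wd H s.2) n (0, 0)), s.1) ∧
    ∃ c : Dir m, ∀ r, ¬ Rip a (obs P s.2 (P.start s.1)) (val (ring n m) x0 (wd H s.2) (n - 1) (ring n m c (0, 0))) r}
  let A3 : Set (Fin σ × (B × Λ → F)) := {s | ∃ b : Fin n × ZMod m, 1 ≤ b.1.val ∧ CF (ring n m) x0 n (wd H s.2) ∧
    Nat.card {b // P.Asks s.2 (P.start s.1) b} ≤ T ∧
    ∀ t : ZMod m, ∃ r, Rip a (obs P s.2 (P.start s.1)) (val (ring n m) x0 (wd H s.2) (n - b.1.val) (0, t)) r ∧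
        rd (obs P s.2 (P.start s.1)) (val (ring n m) x0 (wd H s.2) (n - b.1.val - 1) (0, b.2)) r ≤ a}
  let A4 : Set (Fin σ × (B × Λ → F)) := {s | G s ∧ ∃ τ, CF (ring n m) x0 n (wd H s.2) ∧
    ∃ (L : Fin (n - 1) → Label n m) (num : Idx L → ℕ), Valid L ∧ Fits L T T' num ∧
      Typ a x0 (wd H s.2) (obs P s.2 ((P.step s.2)^[τ] (P.start s.1))) L num}
  have hsub : {s | G s} ⊆ A1 ∪ (A2 ∪ (A3 ∪ A4)) := by
    intro s hs
    by_cases h1 : CF (ring n m) x0 n (wd H s.2)
    swap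
    · exact Or.inl h1
    by_cases h2 : ∀ t : ZMod m, ∃ r, Rip a (obs P s.2 (P.start s.1)) (val (ring n m) x0 (wd H s.2) (n - 1) (0, t)) r
    swap
    · push Not at h2
      obtain ⟨t, ht⟩ := h2
      refine Or.inr (Or.inl ⟨h1, hs.1, (false, t), ?_⟩)
      have h4 : ring n m (false, t) ((0, 0) : Pos n m) = (0, t) := by simp [ring]
      rw [h4]
      exact ht
    by_cases h3 : ∀ l, 1 ≤ l → l < n → ∀ t' : ZMod m, ¬ ∀ t : ZMod m, ∃ r,
      Rip a (obs P s.2 (P.start s.1)) (val (ring n m) x0 (wd H s.2) (n - l) (0, t)) r ∧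
        rd (obs P s.2 (P.start s.1)) (val (ring n m) x0 (wd H s.2) (n - l - 1) (0, t')) r ≤ a
    swap
    · push Not at h3
      obtain ⟨l, hl, hln, t', h3⟩ := h3
      exact Or.inr (Or.inr (Or.inl ⟨(⟨l, hln⟩, t'), hl, h1, hs.2, h3⟩))
    obtain ⟨τ, L, num, h4⟩ := exists_q hn H x0 P (P.start s.1) T s.2 h1 _ hs.1 hs.2 h2 h3
    exact Or.inr (Or.inr (Or.inr ⟨hs, τ, h1, L, num, h4⟩))
  have hfin : Finite (Fin σ × (B × Λ → F)) := inferInstance
  have hcard : Nat.card {s // G s} ≤ A1.ncard + (A2.ncard + (A3.ncard + A4.ncard)) := by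
    calc Nat.card {s // G s} = {s | G s}.ncard := rfl
      _ ≤ (A1 ∪ (A2 ∪ (A3 ∪ A4))).ncard := Set.ncard_le_ncard hsub (Set.toFinite _)
      _ ≤ A1.ncard + (A2 ∪ (A3 ∪ A4)).ncard := Set.ncard_union_le _ _
      _ ≤ A1.ncard + (A2.ncard + (A3 ∪ A4).ncard) := by
          gcongr
          exact Set.ncard_union_le _ _
      _ ≤ _ := by
          gcongr
          exact Set.ncard_union_le _ _
  have hσ : Nat.card (Fin σ) = σ := by simp
  -- A1
  have b1 : A1.ncard * k ≤ σ * (2 * ((n * ((n + 1) * m)) ^ 2 * N)) := by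
    have h1 := card_pairs_le (α := B × Λ → F) (κ := Fin σ) (fun s => ¬ CF (ring n m) x0 n (wd H s.2)) k
      (2 * ((n * ((n + 1) * m)) ^ 2 * N)) (fun i => by
        have h2 := card_not_CF H (by omega) hM' (ring n m) x0 h0 n
        rw [Fintype.card_prod, ZMod.card, ZMod.card] at h2
        exact h2)
    rw [hσ] at h1
    exact h1
  -- A2
  have b2 : A2.ncard * (M * k) ≤ σ * ((M + 1) * (p * N)) := by
    have h1 := card_pairs_le (α := B × Λ → F) (κ := Fin σ) (fun s => CF (ring n m) x0 n (wd H s.2) ∧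
      P.Outputs s.2 (P.start s.1) (φ (val (ring n m) x0 (wd H s.2) n (0, 0)), s.1) ∧
      ∃ c : Dir m, ∀ r, ¬ Rip a (obs P s.2 (P.start s.1))
        (val (ring n m) x0 (wd H s.2) (n - 1) (ring n m c (0, 0))) r) (M * k)
      ((M + 1) * (p * N)) (fun i => by
        have h2 := root_bound H hah (ring n m) x0 n hn P (P.start i) (0, 0) (fun b => (φ b, i)) p
          (fun z => le_trans (Nat.card_le_card_of_injective
              (fun b : {b // (φ b, i) = z} => (⟨b.1, congrArg Prod.fst b.2⟩ : {b // φ b = z.1}))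
              (fun b b' h => Subtype.ext (congrArg (fun c : {b // φ b = z.1} => c.1) h))) (hφ z.1))
        rw [Nat.mul_left_comm] at h2
        exact h2)
    rw [hσ] at h1
    exact h1
  -- A3
  have b3 : A3.ncard * k ^ m ≤ σ * ((n * m) * (T' ^ m * (2 * N))) := by
    have h1 := card_pairs_le (α := B × Λ → F) (κ := Fin σ) (fun s => ∃ b : Fin n × ZMod m, 1 ≤ b.1.val ∧
      CF (ring n m) x0 n (wd H s.2) ∧ Nat.card {b // P.Asks s.2 (P.start s.1) b} ≤ T ∧
      ∀ t : ZMod m, ∃ r, Rip a (obs P s.2 (P.start s.1)) (val (ring n m) x0 (wd H s.2) (n - b.1.val) (0, t)) r ∧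
        rd (obs P s.2 (P.start s.1)) (val (ring n m) x0 (wd H s.2) (n - b.1.val - 1) (0, b.2)) r ≤ a) (k ^ m)
      (Nat.card (Fin n × ZMod m) * (T' ^ m * (2 * N))) (fun i => by
        refine card_exists_le (α := B × Λ → F) (κ := Fin n × ZMod m) _ (k ^ m) (T' ^ m * (2 * N)) fun b => ?_
        by_cases ha : 1 ≤ b.1.val
        · refine le_trans (Nat.mul_le_mul_right _ ?_) (bad_bound H hah hM1 hM2 x0 P (P.start i) T b.1.val ha b.1.2 b.2)
          exact Nat.card_le_card_of_injective (fun I => ⟨I.1, I.2.2⟩)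
            (fun I I' h => by simpa [Subtype.ext_iff] using h)
        · have : IsEmpty {J : B × Λ → F // 1 ≤ b.1.val ∧ CF (ring n m) x0 n (wd H J) ∧
              Nat.card {b // P.Asks J (P.start i) b} ≤ T ∧ ∀ t : ZMod m, ∃ r, Rip a (obs P J (P.start i))
                (val (ring n m) x0 (wd H J) (n - b.1.val) (0, t)) r ∧ rd (obs P J (P.start i))
                  (val (ring n m) x0 (wd H J) (n - b.1.val - 1) (0, b.2)) r ≤ a} := ⟨fun I => ha I.2.1⟩
          rw [Nat.card_of_isEmpty, Nat.zero_mul]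
          exact Nat.zero_le _)
    rw [hσ, Nat.card_eq_fintype_card (α := Fin n × ZMod m), Fintype.card_prod, ZMod.card, Fintype.card_fin] at h1
    exact h1
  -- A4
  have b4 : (A4.ncard : ℝ) ≤ S * (2 * (Real.exp x * (4 * m ^ 2 * ((T : ℝ) / k) / x +
      2 * m ^ 2 * n * ((T' : ℝ) / k) ^ m) ^ (n - 1) * N)) := by
    let V : Fin S → Set (B × Λ → F) := fun q => {J | CF (ring n m) x0 n (wd H J) ∧
      ∃ (L : Fin (n - 1) → Label n m) (num : Idx L → ℕ), Valid L ∧ Fits L T T' num ∧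
        Typ a x0 (wd H J) (obs P J q) L num}
    have h1 : A4.ncard ≤ Nat.card (Σ q : Fin S, V q) := by
      have h2 : ∀ s : A4, ∃ τ, CF (ring n m) x0 n (wd H s.1.2) ∧
          ∃ (L : Fin (n - 1) → Label n m) (num : Idx L → ℕ), Valid L ∧ Fits L T T' num ∧
            Typ a x0 (wd H s.1.2) (obs P s.1.2 ((P.step s.1.2)^[τ] (P.start s.1.1))) L num := fun s => s.2.2
      choose τ hτ using h2
      refine Nat.card_le_card_of_injective
        (fun s : A4 => (⟨(P.step s.1.2)^[τ s] (P.start s.1.1), s.1.2, hτ s⟩ : Σ q : Fin S, V q)) ?_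
      intro s s' h
      have h3 : (P.step s.1.2)^[τ s] (P.start s.1.1) = (P.step s'.1.2)^[τ s'] (P.start s'.1.1) :=
        congrArg Sigma.fst h
      have h4 : s.1.2 = s'.1.2 := congrArg (fun v : Σ q : Fin S, V q => v.2.1) h
      have h5 := outputs_later s.2.1.1 (τ s)
      have h6 := outputs_later s'.2.1.1 (τ s')
      rw [h3, h4] at h5
      have h7 := congrArg Prod.snd (outputs_unique h5 h6)
      exact Subtype.ext (Prod.ext h7 h4)
    have h2 : (Nat.card (Σ q : Fin S, V q) : ℝ) = ∑ q : Fin S, (Nat.card (V q) : ℝ) := by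
      rw [Nat.card_sigma]
      push_cast
      rfl
    calc (A4.ncard : ℝ) ≤ (Nat.card (Σ q : Fin S, V q) : ℝ) := by exact_mod_cast h1
      _ = ∑ q : Fin S, (Nat.card (V q) : ℝ) := h2
      _ ≤ ∑ _q : Fin S, (2 * (Real.exp x * (4 * m ^ 2 * ((T : ℝ) / k) / x +
            2 * m ^ 2 * n * ((T' : ℝ) / k) ^ m) ^ (n - 1) * N)) :=
          Finset.sum_le_sum fun q _ => close_bound H hah hM1 hM x0 P q T T' x hx
      _ = _ := by rw [Finset.sum_const, Finset.card_univ, Fintype.card_fin, nsmul_eq_mul]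
  -- together
  have hNR : (0 : ℝ) ≤ N := Nat.cast_nonneg N
  have c1 : (A1.ncard : ℝ) ≤ σ * (2 * (n * (n + 1) * m) ^ 2 / k) * N := by
    have h1 : (A1.ncard : ℝ) * k ≤ σ * (2 * ((n * ((n + 1) * m)) ^ 2 * N)) := by exact_mod_cast b1
    have h2 : (σ : ℝ) * (2 * (n * (n + 1) * m) ^ 2 / k) * N = σ * (2 * ((n * ((n + 1) * m)) ^ 2 * N)) / k := by ring
    rw [h2, le_div_iff₀ hkR]
    exact h1
  have c2 : (A2.ncard : ℝ) ≤ σ * ((1 + 1 / M) * p / k) * N := by
    have h1 : (A2.ncard : ℝ) * (M * k) ≤ σ * ((M + 1) * (p * N)) := by exact_mod_cast b2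
    have h2 : (σ : ℝ) * ((1 + 1 / M) * p / k) * N = σ * ((M + 1) * (p * N)) / (M * k) := by
      field_simp
    rw [h2, le_div_iff₀ (by positivity)]
    exact h1
  have c3 : (A3.ncard : ℝ) ≤ σ * (2 * (n * m * ((T' : ℝ) / k) ^ m)) * N := by
    have h1 : (A3.ncard : ℝ) * k ^ m ≤ σ * ((n * m) * (T' ^ m * (2 * N))) := by exact_mod_cast b3
    have h2 : (σ : ℝ) * (2 * (n * m * ((T' : ℝ) / k) ^ m)) * N = σ * ((n * m) * (T' ^ m * (2 * N))) / k ^ m := by
      rw [div_pow]
      ring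
    rw [h2, le_div_iff₀ (pow_pos hkR m)]
    exact h1
  calc (Nat.card {s // G s} : ℝ) ≤ A1.ncard + (A2.ncard + (A3.ncard + A4.ncard)) := by exact_mod_cast hcard
    _ ≤ σ * (2 * (n * (n + 1) * m) ^ 2 / k) * N + (σ * ((1 + 1 / M) * p / k) * N +
        (σ * (2 * (n * m * ((T' : ℝ) / k) ^ m)) * N +
        S * (2 * (Real.exp x * (4 * m ^ 2 * ((T : ℝ) / k) / x +
          2 * m ^ 2 * n * ((T' : ℝ) / k) ^ m) ^ (n - 1) * N)))) := by gcongr
    _ = _ := by ring

end Pool.Agent.Helper27.NC
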