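import Pool.Agent.Helper27.NC.Word
import Pool.Agent.Helper60.NC.Words
import Pool.Agent.Helper98.NC.Param
import Pool.Agent.Helper98.NC.Push
import Pool.Agent.Helper58.NC.Head
import Pool.Agent.Helper84.NC.Bound

/-!
# The final steps
-/

set_option autoImplicit false

namespace Pool.Agent.Helper27.NC.Final

open Pool.Agent.Helper19.NF Pool.Agent.Helper27.NC
open Pool.Agent.Helper27.NB (num)
open Pool.Agent.Helper98.NC (parameters push_head)
open Pool.Agent.Helper58.NC (head)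
open Pool.Agent.Helper60.NC (push_words det_words read_words)

/-- (G). -/
theorem general {K : Type} [Field K] [Fintype K] {c d M n m e σ S p T : ℕ} [Fact c.Prime] [CharP K c] [NeZero m]
      {Y : Type} (x : ℝ) (x0 : ZMod (n + 1) × ZMod m → Fin e → K) (φ : (Fin e → K) → Y)
      (P : Prog ((Fin e → K) × (K × K)) Bool (Y × Fin σ) σ S) (hn : 1 ≤ n) (he : 1 ≤ e)
      (hQ : 2 * m * e ≤ Fintype.card K)
      (hd : d < (Fintype.card K - (2 * m * e - 1)) * (Fintype.card K - Fintype.card K / c))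
      (hM : 4 * (n * m) ≤ M) (hM' : 2 * Fintype.card K ^ e ≤ M)
      (hη : (M : ℝ) * ((Fintype.card K : ℝ) ^ (2 * m * e) * (1 - 1 / (8 * (c : ℝ) ^ 2)) ^ d) ≤ 1)
      (hx : 0 < x) (h0 : Function.Injective x0) (hφ : ∀ y, Nat.card {b // φ b = y} ≤ p) :
      (Nat.card {s : Fin σ × ((Fin e → K) × (K × K) → Bool) //
          P.Outputs s.2 (P.start s.1) (φ (out x0 (table s.2)), s.1) ∧
          Nat.card {b // P.Asks s.2 (P.start s.1) b} ≤ T} : ℝ) ≤
        (σ * ((2 * (n * (n + 1) * m) ^ 2 + (1 + 1 / M) * p) / (Fintype.card K : ℝ) ^ e + 2 * (n * m *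
            (((T / ((Fintype.card K - (2 * m * e - 1)) * (Fintype.card K - Fintype.card K / c) - d) : ℕ) : ℝ) /
              (Fintype.card K : ℝ) ^ e) ^ m)) +
          2 * (S * (Real.exp x * (4 * m ^ 2 * ((T : ℝ) / (Fintype.card K : ℝ) ^ e) / x + 2 * m ^ 2 * n *
            (((T / ((Fintype.card K - (2 * m * e - 1)) * (Fintype.card K - Fintype.card K / c) - d) : ℕ) : ℝ) /
              (Fintype.card K : ℝ) ^ e) ^ m) ^ (n - 1)))) * Nat.card ((Fin e → K) × (K × K) → Bool) :=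
  Pool.Agent.Helper84.NC.bound_word c d M hn he hQ hd hM hM' hη x hx x0 h0 φ p T hφ P

/-- (H). -/
theorem numbers : ∃ C : ℕ, ∀ δ : ℝ, 0 < δ → δ ≤ 1 → ∃ c n0 : ℕ, c.Prime ∧ ∀ n ≥ n0,
      ∃ (m s e : ℕ) (_ : NeZero m),
      1 ≤ s ∧ 1 ≤ e ∧ ∀ (K : Type) (_ : Field K) (_ : Fintype K) (_ : CharP K c) (k N : ℕ)
        (x0 : ZMod (n + 1) × ZMod m → Fin e → K),
      Fintype.card K = c ^ s → k = Fintype.card K ^ e → N = k * Fintype.card K ^ 2 →
      Function.Injective x0 → n * (n + 1) * m ≤ k ∧ n ^ 5 ≤ N ∧ N ≤ n ^ 7 ∧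
      -- (L) programs
      (∀ (σ S p T : ℕ) (Y : Type) (φ : (Fin e → K) → Y) (P : Prog ((Fin e → K) × (K × K)) Bool (Y × Fin σ) σ S),
        (∀ y, Nat.card {b // φ b = y} ≤ p) → (T : ℝ) ≤ (1 - δ) * N → (S : ℝ) ≤ σ * (n : ℝ) ^ ((n : ℝ) / 3) →
        (Nat.card {s : Fin σ × ((Fin e → K) × (K × K) → Bool) //
            P.Outputs s.2 (P.start s.1) (φ (out x0 (table s.2)), s.1) ∧
            Nat.card {b // P.Asks s.2 (P.start s.1) b} ≤ T} : ℝ) ≤
          (p / k + δ) * Nat.card (Fin σ × ((Fin e → K) × (K × K) → Bool))) ∧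
      -- (T) pushdown programs
      (∀ (w p T : ℕ) (Y Q Γ : Type) (_ : Finite Q) (_ : Finite Γ) (φ : (Fin e → K) → Y)
          (P : PProg ((Fin e → K) × (K × K)) Bool Y Q Γ),
        (∀ y, Nat.card {b // φ b = y} ≤ p) → (T : ℝ) ≤ (1 - δ) * N →
        (16 * w ^ 2 : ℝ) ≤ n * Real.log n → Nat.card Q ≤ 2 ^ w → Nat.card Γ ≤ 2 ^ w →
        (Nat.card {J : (Fin e → K) × (K × K) → Bool //
            (∃ j ≤ 2 ^ w, P.act (P.conf J j).1 = .out (φ (out x0 (table J)))) ∧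
            Nat.card {b // P.Asks J b} ≤ T} : ℝ) ≤
          (p / k + δ) * Nat.card ((Fin e → K) × (K × K) → Bool)) ∧
      -- (P) a pushdown program which is always right
      (∃ (Q Γ : Type) (_ : Finite Q) (_ : Finite Γ) (P : PProg ((Fin e → K) × (K × K)) Bool (Fin e → K) Q Γ),
        Nat.card Q ≤ (2 * k) ^ 5 ∧ Nat.card Γ ≤ (2 * k) ^ 2 ∧
        ∀ J, P.Outputs J (out x0 (table J)) ∧ Nat.card {b // P.Asks J b} ^ 2 ≤ N) ∧
      -- (U) a program which is always right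
      (∃ (S : ℕ) (P : Prog ((Fin e → K) × (K × K)) Bool (Fin e → K) 1 S), S ≤ (2 * k) ^ (5 * n) ∧
        ∀ J, P.Outputs J (P.start 0) (out x0 (table J)) ∧ Nat.card {b // P.Asks J (P.start 0) b} ^ 2 ≤ N) ∧
      -- (C) a program which reads all bits
      (∃ (S : ℕ) (P : Prog ((Fin e → K) × (K × K)) Bool (Fin e → K) 1 S), (S : ℝ) ≤ Real.log n ^ (C * n) ∧
        ∀ J, P.Outputs J (P.start 0) (out x0 (table J))) := by
  classical
  obtain ⟨C, n1, hC⟩ := read_words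
  refine ⟨C, fun δ hδ hδ1 => ?_⟩
  obtain ⟨c, hc, hδc, n0, hn0⟩ := parameters δ hδ hδ1
  refine ⟨c, max n0 (max n1 1000), hc, fun n hn => ?_⟩
  obtain ⟨m, s, e, d, hm, hs, he, hlog, hr, hd, hm2, hk5, hk6, hkmm, hsq, hN7, hΛ, hr', hmlog, hQn, hη, hδn⟩ :=
    hn0 n (le_of_max_le_left hn)
  have hn3 : 1000 ≤ n := le_of_max_le_right (le_of_max_le_right hn)
  have hn1 : n1 ≤ n := le_of_max_le_left (le_of_max_le_right hn)
  refine ⟨m, s, e, ⟨by omega⟩, hs, he, ?_⟩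
  intro K _ _ _ k N x0 hK hk hN h0
  have : NeZero m := ⟨by omega⟩
  have : Fact c.Prime := ⟨hc⟩
  rw [← hK] at hr hd hm2 hk5 hk6 hkmm hsq hN7 hΛ hr' hQn hη
  have hkR : (k : ℝ) = (Fintype.card K : ℝ) ^ e := by rw [hk]; push_cast; rfl
  have hNR : (N : ℝ) = (Fintype.card K : ℝ) ^ e * (Fintype.card K : ℝ) ^ 2 := by rw [hN, hk]; push_cast; rfl
  have hQ0 : 0 < Fintype.card K := Fintype.card_pos
  have hcardB : Fintype.card (Fin e → K) = k := by rw [Fintype.card_fun, Fintype.card_fin, hk]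
  have hcardΛ : Fintype.card (K × K) = Fintype.card K ^ 2 := by rw [Fintype.card_prod, sq]
  have h5N : n ^ 5 ≤ N := by
    rw [hN, hk]
    exact hk5.trans (Nat.le_mul_of_pos_right _ (by positivity))
  have h7N : N ≤ n ^ 7 := by rw [hN, hk]; exact hN7
  have hkm0 : n * (n + 1) * m ≤ n * (n + 1) * m * (2 * m) := Nat.le_mul_of_pos_right _ (by omega)
  have hkm' : n * (n + 1) * m ≤ Fintype.card (Fin e → K) := by rw [hcardB, hk]; exact hkm0.trans hkmm
  have hkmm' : n * (n + 1) * m * (2 * m) ≤ Fintype.card (Fin e → K) := by rw [hcardB, hk]; exact hkmm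
  have hB2 : 2 ≤ Fintype.card (Fin e → K) := by
    rw [hcardB, hk]
    refine le_trans ?_ hk5
    calc 2 ≤ n := by omega
      _ = n ^ 1 := (pow_one n).symm
      _ ≤ n ^ 5 := Nat.pow_le_pow_right (by omega) (by norm_num)
  have hΛ' : Fintype.card (K × K) ≤ Fintype.card (Fin e → K) := by rw [hcardB, hcardΛ, hk]; exact hΛ
  have hsq' : ∀ x : ℕ, x ≤ n * (n + 1) * m * Fintype.card (K × K) → x ^ 2 ≤ N := by
    intro x hx
    refine (Nat.pow_le_pow_left hx 2).trans ?_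
    rw [hcardΛ, hN, hk]
    exact hsq
  refine ⟨by rw [hk]; exact hkm0.trans hkmm, h5N, h7N, ?_, ?_, ?_, ?_, ?_⟩
  · intro σ S p T Y φ P hφ hT hS
    rw [hkR]
    exact head c d he δ hδ hδc hlog hr hd hm2 hk5 hr' hη hδn x0 h0 φ p T hφ (by rw [← hNR]; exact hT) hS P
  · intro w p T Y Q Γ _ _ φ P hφ hT hw hcQ hcΓ
    rw [hkR]
    exact push_head c d he δ hδ hδc hlog hr hd hm2 hk5 hr' hη hδn x0 h0 φ p T w hφ (by rw [← hNR]; exact hT) hw hcQ
      hcΓ P
  · have h1 := push_words x0 he hkmm hΛ hsq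
    rw [hk, hN, hk]
    exact h1
  · obtain ⟨S, P, h1, h2⟩ := det_words (by omega) x0 (hkm0.trans hkmm) hΛ hsq
    rw [← hk] at h1
    rw [← hk, ← hN] at h2
    have hk0 : 1 ≤ 2 * k := by
      rw [hk]
      have : 0 < Fintype.card K ^ e := by positivity
      omega
    exact ⟨S, P, h1.trans (Nat.pow_le_pow_right hk0 (by omega)), h2⟩
  · exact hC n m e K x0 hn1 he hmlog hQn hk6

end Pool.Agent.Helper27.NC.Final
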