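import Pool.Agent.Helper27.NC.Defs
import Pool.Agent.Helper27.NC.Word

/-!
# Frame (only for the work, not for the graded result)
-/

set_option autoImplicit false

namespace Pool.Agent.Helper27.NC.Frame

open Pool.Agent.Helper6.IP (cnt)
open Pool.Agent.Helper19.NF (Prog obs val ring out CF Pos Dir pos Label Idx Valid lev pst slt PProg)
open Pool.Agent.Helper27.NB (rd New Early Rip crip Hit Chain InR Fits Typ num)
open Pool.Agent.Helper27.NC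

section general

variable {U D B Λ F Z : Type} [Fintype U] [Fintype D] [DecidableEq D] [AddCommGroup B] [Fintype B] [Fintype Λ]
  [Fintype F] {σ S ρ h a M : ℕ}

/-- B1': few inputs have two equal elements in the rows below `n`. -/
theorem card_not_CF [Nonempty D] (H : Hid Λ F (D → B) ρ h M) (hh : h ≤ Fintype.card Λ) (hM : 2 * Fintype.card B ≤ M)
    (g : D → Equiv.Perm U) (x0 : U → B) (h0 : Function.Injective x0) (n : ℕ) :
    Nat.card {J : B × Λ → F // ¬ CF g x0 n (wd H J)} * Fintype.card B ≤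
      2 * ((n * Fintype.card U) ^ 2 * Nat.card (B × Λ → F)) := sorry

/-- B2': the secrets lemma. -/
theorem secrets {ι : Type} [Fintype ι] (H : Hid Λ F (D → B) ρ h M) (hah : a + h = Fintype.card Λ)
    (hM1 : 1 ≤ M) (hM : 4 * Fintype.card ι ≤ M)
    (g : D → Equiv.Perm U) (x0 : U → B) (n : ℕ) (P : Prog (B × Λ) F Z σ S) (q : Fin S) (nd : ι → ℕ × U)
    (hinj : Function.Injective nd) (hrow : ∀ i, 1 ≤ (nd i).1 ∧ (nd i).1 < n) (sl : ι → D) (kind : ι → Bool)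
    (num : ι → ℕ) :
    Nat.card {J : B × Λ → F // CF g x0 n (wd H J) ∧ ∀ i, Hit a (obs P J q) (kind i)
      (val g x0 (wd H J) (nd i).1 (nd i).2) (val g x0 (wd H J) ((nd i).1 - 1) (g (sl i) (nd i).2)) (num i)} *
      Fintype.card B ^ Fintype.card ι ≤ 2 * Nat.card (B × Λ → F) := sorry

/-- B3': a block used by the result never gets ripe. -/
theorem root_bound [Nonempty D] (H : Hid Λ F (D → B) ρ h M) (hah : a + h = Fintype.card Λ) (g : D → Equiv.Perm U)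
    (x0 : U → B) (n : ℕ) (hn : 1 ≤ n) (P : Prog (B × Λ) F Z σ S) (q : Fin S) (w : U) (φ : B → Z) (p : ℕ)
    (hφ : ∀ z, Nat.card {b // φ b = z} ≤ p) :
    M * (Nat.card {J : B × Λ → F // CF g x0 n (wd H J) ∧ P.Outputs J q (φ (val g x0 (wd H J) n w)) ∧
      ∃ c, ∀ t, ¬ Rip a (obs P J q) (val g x0 (wd H J) (n - 1) (g c w)) t} * Fintype.card B) ≤
      (M + 1) * (p * Nat.card (B × Λ → F)) := sorry

end general

section ring

variable {n m : ℕ} [NeZero m] {B Λ F Z : Type} [AddCommGroup B] [Fintype Λ] {σ S ρ h a M : ℕ}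

/-- B10': the closing instances of one state (from B2', nd_inj, nd_row, B8, B9; `x0`, `q` fixed;
`Fintype.card (Idx L) ≤ (n - 1) * m`). -/
theorem close_bound [Fintype B] [Fintype F] (H : Hid Λ F (Dir m → B) ρ h M) (hah : a + h = Fintype.card Λ)
    (hM1 : 1 ≤ M) (hM : 4 * (n * m) ≤ M)
    (x0 : Pos n m → B) (P : Prog (B × Λ) F Z σ S) (q : Fin S) (T T' : ℕ) (x : ℝ) (hx : 0 < x) :
    (Nat.card {J : B × Λ → F // CF (ring n m) x0 n (wd H J) ∧ ∃ (L : Fin (n - 1) → Label n m) (num : Idx L → ℕ),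
      Valid L ∧ Fits L T T' num ∧ Typ a x0 (wd H J) (obs P J q) L num} : ℝ) ≤
      2 * (Real.exp x * (4 * m ^ 2 * ((T : ℝ) / Fintype.card B) / x +
        2 * m ^ 2 * n * ((T' : ℝ) / Fintype.card B) ^ m) ^ (n - 1) * Nat.card (B × Λ → F)) := sorry

/-- B11': the whole bound. The pairs `(i, J)` such that the computation from the initial state number `i` on `J` ends
with the right output and with the index `i` and queries at most `T` symbols. -/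
theorem main_bound {Y : Type} [Fintype B] [Fintype F] (hn : 1 ≤ n) (H : Hid Λ F (Dir m → B) ρ h M)
    (hah : a + h = Fintype.card Λ) (hM : 4 * (n * m) ≤ M) (hM' : 2 * Fintype.card B ≤ M)
    (x0 : Pos n m → B) (h0 : Function.Injective x0)
    (P : Prog (B × Λ) F (Y × Fin σ) σ S) (φ : B → Y) (p T : ℕ) (hφ : ∀ y, Nat.card {b // φ b = y} ≤ p) (x : ℝ)
    (hx : 0 < x) :
    (Nat.card {s : Fin σ × (B × Λ → F) // P.Outputs s.2 (P.start s.1) (φ (out x0 (wd H s.2)), s.1) ∧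
        Nat.card {b // P.Asks s.2 (P.start s.1) b} ≤ T} : ℝ) ≤
      (σ * ((2 * (n * (n + 1) * m) ^ 2 + (1 + 1 / M) * p) / Fintype.card B +
          2 * (n * m * (((T / (a + 1) : ℕ) : ℝ) / Fintype.card B) ^ m)) +
        2 * (S * (Real.exp x * (4 * m ^ 2 * ((T : ℝ) / Fintype.card B) / x +
          2 * m ^ 2 * n * (((T / (a + 1) : ℕ) : ℝ) / Fintype.card B) ^ m) ^ (n - 1)))) *
        Nat.card (B × Λ → F) := sorry

end ring

section code

/-- X3: the words of the blocks are nearly hidden. `c` is the characteristic. -/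
theorem exists_hid {K D : Type} [Field K] [Fintype K] [Fintype D] [Nonempty D] (c : ℕ) [Fact c.Prime] [CharP K c]
    (e : ℕ) (he : 1 ≤ e) (num : D → ℕ) (hnum : Function.Injective num) (hlt : ∀ x, num x < Fintype.card D)
    (hrK : e * Fintype.card D ≤ Fintype.card K) (d h M : ℕ) (hcard : h ≤ Fintype.card K ^ 2)
    (hh : (e * Fintype.card D - 1) * Fintype.card K +
      (Fintype.card K - (e * Fintype.card D - 1)) * (Fintype.card K / c) + d ≤ h)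
    (hM : (M : ℝ) * ((Fintype.card K : ℝ) ^ (e * Fintype.card D) * (1 - 1 / (8 * (c : ℝ) ^ 2)) ^ d) ≤ 1) :
    ∃ (ρ : ℕ) (H : Hid (K × K) Bool (D → Fin e → K) ρ h M), H.dec = bword e num := sorry

variable {K : Type} [Field K] [Fintype K] {n m e σ S : ℕ} [NeZero m]

/-- B18a': the general bound with the word written out (from X3 with `num`, B11'); `c` is the characteristic. -/
theorem bound_word {Y : Type} (c : ℕ) [Fact c.Prime] [CharP K c] (d M : ℕ) (hn : 1 ≤ n) (he : 1 ≤ e)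
    (hQ : 2 * m * e ≤ Fintype.card K)
    (hd : d < (Fintype.card K - (2 * m * e - 1)) * (Fintype.card K - Fintype.card K / c))
    (hM : 4 * (n * m) ≤ M) (hM' : 2 * Fintype.card K ^ e ≤ M)
    (hM'' : (M : ℝ) * ((Fintype.card K : ℝ) ^ (2 * m * e) * (1 - 1 / (8 * (c : ℝ) ^ 2)) ^ d) ≤ 1) (x : ℝ) (hx : 0 < x)
    (x0 : ZMod (n + 1) × ZMod m → Fin e → K) (h0 : Function.Injective x0) (φ : (Fin e → K) → Y) (p T : ℕ)
    (hφ : ∀ y, Nat.card {b // φ b = y} ≤ p) (P : Prog ((Fin e → K) × (K × K)) Bool (Y × Fin σ) σ S) :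
    (Nat.card {s : Fin σ × ((Fin e → K) × (K × K) → Bool) //
          P.Outputs s.2 (P.start s.1) (φ (out x0 (table s.2)), s.1) ∧
          Nat.card {b // P.Asks s.2 (P.start s.1) b} ≤ T} : ℝ) ≤
        (σ * ((2 * (n * (n + 1) * m) ^ 2 + (1 + 1 / M) * p) / (Fintype.card K : ℝ) ^ e + 2 * (n * m *
            (((T / ((Fintype.card K - (2 * m * e - 1)) * (Fintype.card K - Fintype.card K / c) - d) : ℕ) : ℝ) /
              (Fintype.card K : ℝ) ^ e) ^ m)) +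
          2 * (S * (Real.exp x * (4 * m ^ 2 * ((T : ℝ) / (Fintype.card K : ℝ) ^ e) / x + 2 * m ^ 2 * n *
            (((T / ((Fintype.card K - (2 * m * e - 1)) * (Fintype.card K - Fintype.card K / c) - d) : ℕ) : ℝ) /
              (Fintype.card K : ℝ) ^ e) ^ m) ^ (n - 1)))) * Nat.card ((Fin e → K) × (K × K) → Bool) := sorry

end code

section numbers

/-- B16a': the numbers, with `2 / sqrt n` instead of `1 / 200`. -/
theorem numbers_real (n m Q : ℕ) (s K K' : ℝ) (hs0 : 0 ≤ s) (hm : 1 ≤ m) (hQ : 1 ≤ Q) (hK0 : 0 ≤ K) (hK : K ≤ Q ^ 2)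
    (hK0' : 0 ≤ K') (hK' : K' ≤ 1 - 2 * Real.log n / m) (hm2 : (6 * (m * Q) ^ 2 : ℝ) ≤ Real.sqrt n)
    (hS : s ≤ (n : ℝ) ^ ((n : ℝ) / 3)) :
    n * m * K' ^ m + s * (Real.exp n * (4 * m ^ 2 * K / n + 2 * m ^ 2 * n * K' ^ m) ^ (n - 1)) ≤
      2 / Real.sqrt n := sorry

/-- B16b': the part of the ripe blocks: `c` is the characteristic, `8 ≤ δ c`, `8 r ≤ δ Q`, `8 d ≤ δ Q ^ 2`. -/
theorem ripe_part (c Q r k T d : ℕ) (δ : ℝ) (hc : 2 ≤ c) (hcQ : c ∣ Q) (hQ : 1 ≤ Q) (hr : 1 ≤ r) (hk : 1 ≤ k)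
    (hδ : 0 < δ) (hδc : 8 ≤ δ * c) (hr2 : (8 * r : ℝ) ≤ δ * Q) (hd : (8 * d : ℝ) ≤ δ * Q ^ 2)
    (hT : (T : ℝ) ≤ (1 - δ) * (k * Q ^ 2)) :
    ((T / ((Q - (r - 1)) * (Q - Q / c) - d) : ℕ) : ℝ) / k ≤ 1 - δ / 2 := sorry

/-- B16c': the parameters: the characteristic `c` depends only on `δ`. -/
theorem parameters (δ : ℝ) (hδ : 0 < δ) (hδ1 : δ ≤ 1) : ∃ c : ℕ, c.Prime ∧ 8 ≤ δ * c ∧ ∃ n0 : ℕ, ∀ n ≥ n0,
    ∃ m s e d : ℕ, 1 ≤ m ∧ 1 ≤ s ∧ 1 ≤ e ∧ 2 * Real.log n / m ≤ δ / 2 ∧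
      (8 * (2 * m * e : ℕ) : ℝ) ≤ δ * (c ^ s : ℕ) ∧ (8 * d : ℝ) ≤ δ * ((c ^ s : ℕ) : ℝ) ^ 2 ∧
      (6 * (m * (c ^ s : ℕ)) ^ 2 : ℝ) ≤ Real.sqrt n ∧ n ^ 5 ≤ (c ^ s) ^ e ∧ (c ^ s) ^ e ≤ n ^ 6 ∧
      n * (n + 1) * m * (2 * m) ≤ (c ^ s) ^ e ∧
      ((n * (n + 1) * m) * (c ^ s) ^ 2) ^ 2 ≤ (c ^ s) ^ e * (c ^ s) ^ 2 ∧
      (c ^ s) ^ e * (c ^ s) ^ 2 ≤ n ^ 7 ∧ (c ^ s) ^ 2 ≤ (c ^ s) ^ e ∧ 2 * m * e ≤ c ^ s ∧
      (m : ℝ) ≤ Real.log n ^ 2 ∧ (c ^ s) ^ 2 ≤ n ∧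
      ((4 * (c ^ s) ^ e : ℕ) : ℝ) * (((c ^ s : ℕ) : ℝ) ^ (2 * m * e) * (1 - 1 / (8 * (c : ℝ) ^ 2)) ^ d) ≤ 1 ∧
      10 / Real.sqrt n ≤ δ := sorry

end numbers

end Pool.Agent.Helper27.NC.Frame
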